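import Pool.Agent.D0H67.SUB.Stm

/-! # ORD1, ORD2: orders of products of linear forms on jets -/

set_option autoImplicit false
set_option linter.unusedSectionVars false
set_option linter.unusedVariables false

namespace Pool.Agent.D0H9.SUB

open MvPolynomial Pool.Agent.W428.MOT Pool.Agent.TH192.MT Pool.Agent.TH192.DT
open Pool.Agent.D0H67.SUB

/-- leading coefficients of products -/
theorem lead {F S : Type} [Field F] [Fintype S] {κ : S → Type} (e a : S → ℕ)
    (W : (s : S) → κ s → PowerSeries F) (h : ∀ s j, ∀ k < a s, PowerSeries.coeff k (W s j) = 0)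
    (g : (s : S) → Fin (e s) → κ s) :
    (∀ k < ∑ s, e s * a s, PowerSeries.coeff k (∏ s, ∏ i, W s (g s i)) = 0) ∧
      PowerSeries.coeff (∑ s, e s * a s) (∏ s, ∏ i, W s (g s i)) =
        ∏ s, ∏ i, PowerSeries.coeff (a s) (W s (g s i)) := by
  have h1 : ∀ s j, ∃ V : PowerSeries F, W s j = PowerSeries.X ^ a s * V := fun s j =>
    PowerSeries.X_pow_dvd_iff.2 (h s j)
  choose V hV using h1
  have h2 : ∏ s, ∏ i, W s (g s i) =
      PowerSeries.X ^ (∑ s, e s * a s) * ∏ s, ∏ i, V s (g s i) := by
    have h3 : ∀ s, ∏ i, W s (g s i) = PowerSeries.X ^ (e s * a s) * ∏ i, V s (g s i) := by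
      intro s
      rw [Finset.prod_congr rfl fun i _ => hV s (g s i), Finset.prod_mul_distrib,
        Finset.prod_const, Finset.card_univ, Fintype.card_fin, ← pow_mul, mul_comm (a s)]
    rw [Finset.prod_congr rfl fun s _ => h3 s, Finset.prod_mul_distrib, Finset.prod_pow_eq_pow_sum]
  have h4 : ∀ s j, PowerSeries.coeff (a s) (W s j) = PowerSeries.constantCoeff (V s j) := by
    intro s j
    have := PowerSeries.coeff_X_pow_mul (V s j) (a s) 0
    rw [zero_add] at this
    rw [hV, this, PowerSeries.coeff_zero_eq_constantCoeff_apply]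
  constructor
  · intro k hk
    rw [h2]
    exact PowerSeries.X_pow_dvd_iff.1 (Dvd.intro _ rfl) k hk
  · have := PowerSeries.coeff_X_pow_mul (∏ s, ∏ i, V s (g s i)) (∑ s, e s * a s) 0
    rw [zero_add] at this
    rw [h2, this, PowerSeries.coeff_zero_eq_constantCoeff_apply, map_prod]
    refine Finset.prod_congr rfl fun s _ => ?_
    rw [map_prod]
    exact Finset.prod_congr rfl fun i _ => (h4 s _).symm

/-- decomposable tensors determine their factors -/
theorem tensor {F S : Type} [Field F] [Fintype S] [DecidableEq S] {κ : S → Type} (e : S → ℕ)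
    (x y : (s : S) → κ s → F) (g0 : (s : S) → Fin (e s) → κ s) (c₀ : F) (hc : c₀ ≠ 0)
    (hy : ∏ s, ∏ k, y s (g0 s k) ≠ 0)
    (h : ∀ g : (s : S) → Fin (e s) → κ s, ∏ s, ∏ k, x s (g s k) = c₀ * ∏ s, ∏ k, y s (g s k))
    (t : S) (k0 : Fin (e t)) : ∃ α : F, α ≠ 0 ∧ ∀ j, x t j = α * y t j := by
  have key : ∀ (u : (s : S) → κ s → F) (j : κ t),
      ∏ s, ∏ k, u s (Function.update g0 t (Function.update (g0 t) k0 j) s k) =
        u t j * ((∏ k ∈ Finset.univ.erase k0, u t (g0 t k)) *
          ∏ s ∈ Finset.univ.erase t, ∏ k, u s (g0 s k)) := by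
    intro u j
    rw [← Finset.mul_prod_erase Finset.univ _ (Finset.mem_univ t), ← mul_assoc]
    congr 1
    · rw [← Finset.mul_prod_erase Finset.univ _ (Finset.mem_univ k0)]
      simp only [Function.update_self]
      congr 1
      refine Finset.prod_congr rfl fun k hk => ?_
      rw [Function.update_of_ne (Finset.ne_of_mem_erase hk)]
    · refine Finset.prod_congr rfl fun s hs => ?_
      rw [Function.update_of_ne (Finset.ne_of_mem_erase hs)]
  set Px := (∏ k ∈ Finset.univ.erase k0, x t (g0 t k)) *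
          ∏ s ∈ Finset.univ.erase t, ∏ k, x s (g0 s k) with hPx
  set Py := (∏ k ∈ Finset.univ.erase k0, y t (g0 t k)) *
          ∏ s ∈ Finset.univ.erase t, ∏ k, y s (g0 s k) with hPy
  have e0 : Function.update g0 t (Function.update (g0 t) k0 (g0 t k0)) = g0 := by
    rw [Function.update_eq_self, Function.update_eq_self]
  have h1 : y t (g0 t k0) * Py ≠ 0 := by
    rw [hPy, ← key, e0]
    exact hy
  have h2 : x t (g0 t k0) * Px ≠ 0 := by
    rw [hPx, ← key, e0, h]
    exact mul_ne_zero hc hy
  have hPx0 : Px ≠ 0 := right_ne_zero_of_mul h2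
  have hPy0 : Py ≠ 0 := right_ne_zero_of_mul h1
  refine ⟨c₀ * Py / Px, div_ne_zero (mul_ne_zero hc hPy0) hPx0, fun j => ?_⟩
  have h3 := h (Function.update g0 t (Function.update (g0 t) k0 j))
  rw [key, key] at h3
  field_simp
  rw [h3]
  ring

variable {K : Type} [Field K] {σ S : Type} [Fintype σ]

theorem coeff_ar' {N : ℕ} (z : Pt K (σ × Fin (N + 1))) (i : σ) (k : ℕ) :
    PowerSeries.coeff k (ar z i) = jk z k i := by
  unfold ar jk
  rw [PowerSeries.coeff_mk]

theorem coeff_form {N : ℕ} (z : Pt K (σ × Fin (N + 1))) (c : σ → K) (k : ℕ) :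
    PowerSeries.coeff k (aeval (ar z) (form c)) =
      ∑ i, algebraMap K (AlgebraicClosure K) (c i) * jk z k i := by
  unfold form
  rw [map_sum, map_sum]
  refine Finset.sum_congr rfl fun i _ => ?_
  rw [map_mul, aeval_C, aeval_X, PowerSeries.algebraMap_apply, PowerSeries.coeff_C_mul, coeff_ar']

variable [Fintype S] {κ : S → Type}

theorem aeval_gens {N : ℕ} (z : Pt K (σ × Fin (N + 1))) (c : (s : S) → κ s → σ → K) (e : S → ℕ)
    (g : (s : S) → Fin (e s) → κ s) :
    aeval (ar z) (gens c e g) = ∏ s, ∏ k, aeval (ar z) (form (c s (g s k))) := by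
  unfold gens
  rw [map_prod]
  refine Finset.prod_congr rfl fun s _ => ?_
  rw [map_prod]

theorem mem_zerosF {κ' : Type} (c : κ' → σ → K) (x : Pt K σ) :
    x ∈ zerosF c ↔ ∀ j, ∑ i, algebraMap K (AlgebraicClosure K) (c j i) * x i = 0 := Iff.rfl

/-- the coefficients of the generators below the order, and the leading coefficient -/
theorem lead_gens {N : ℕ} (z : Pt K (σ × Fin (N + 1))) (c : (s : S) → κ s → σ → K) (e a : S → ℕ)
    (h : ∀ s, ∀ k < a s, jk z k ∈ zerosF (c s)) (g : (s : S) → Fin (e s) → κ s) :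
    (∀ k < ∑ s, e s * a s, PowerSeries.coeff k (aeval (ar z) (gens c e g)) = 0) ∧
      PowerSeries.coeff (∑ s, e s * a s) (aeval (ar z) (gens c e g)) =
        ∏ s, ∏ k, ∑ i, algebraMap K (AlgebraicClosure K) (c s (g s k) i) * jk z (a s) i := by
  rw [aeval_gens]
  have := lead e a (fun s j => aeval (ar z) (form (c s j)))
    (fun s j k hk => by rw [coeff_form]; exact (mem_zerosF _ _).1 (h s k hk) j) g
  refine ⟨this.1, this.2.trans ?_⟩
  refine Finset.prod_congr rfl fun s _ => Finset.prod_congr rfl fun k _ => ?_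
  rw [coeff_form]

theorem exists_g (c : (s : S) → κ s → σ → K) (e : S → ℕ) (x : S → Pt K σ)
    (h : ∀ s, x s ∉ zerosF (c s)) : ∃ g : (s : S) → Fin (e s) → κ s,
      ∏ s, ∏ k, ∑ i, algebraMap K (AlgebraicClosure K) (c s (g s k) i) * x s i ≠ 0 := by
  have h1 : ∀ s, ∃ j, ∑ i, algebraMap K (AlgebraicClosure K) (c s j i) * x s i ≠ 0 := by
    intro s
    have := h s
    rw [mem_zerosF] at this
    push Not at this
    exact this
  choose j hj using h1
  refine ⟨fun s _ => j s, ?_⟩
  rw [Finset.prod_ne_zero_iff]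
  intro s _
  rw [Finset.prod_ne_zero_iff]
  intro k _
  exact hj s

theorem exists_a {N : ℕ} (z : Pt K (σ × Fin (N + 1))) (c : (s : S) → κ s → σ → K) (e : S → ℕ)
    (he : ∀ s, 0 < e s) (h0 : ∀ g, ∀ k < N, PowerSeries.coeff k (aeval (ar z) (gens c e g)) = 0)
    (hN : ∃ g, PowerSeries.coeff N (aeval (ar z) (gens c e g)) ≠ 0) :
    ∃ a : S → ℕ, (∀ s, (∀ k < a s, jk z k ∈ zerosF (c s)) ∧ jk z (a s) ∉ zerosF (c s)) ∧
        ∑ s, e s * a s = N := by
  classical
  obtain ⟨g, hg⟩ := hN
  have hex : ∀ s, ∃ k, jk z k ∉ zerosF (c s) := by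
    intro s
    by_contra hcon
    push Not at hcon
    have hz : aeval (ar z) (gens c e g) = 0 := by
      rw [aeval_gens]
      refine Finset.prod_eq_zero (Finset.mem_univ s) ?_
      refine Finset.prod_eq_zero (Finset.mem_univ (⟨0, he s⟩ : Fin (e s))) ?_
      ext k
      rw [coeff_form]
      exact (mem_zerosF _ _).1 (hcon k) _
    rw [hz] at hg
    simp at hg
  refine ⟨fun s => Nat.find (hex s), fun s => ⟨fun k hk => ?_, Nat.find_spec (hex s)⟩, ?_⟩
  · have := Nat.find_min (hex s) hk
    push Not at this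
    exact this
  · have hmin : ∀ s, ∀ k < Nat.find (hex s), jk z k ∈ zerosF (c s) := by
      intro s k hk
      have := Nat.find_min (hex s) hk
      push Not at this
      exact this
    obtain ⟨g', hg'⟩ := exists_g c e (fun s => jk z (Nat.find (hex s))) fun s => Nat.find_spec (hex s)
    refine le_antisymm ?_ ?_
    · by_contra hlt
      push Not at hlt
      exact hg ((lead_gens z c e _ hmin g).1 N hlt)
    · by_contra hlt
      push Not at hlt
      have h1 := h0 g' _ hlt
      rw [(lead_gens z c e _ hmin g').2] at h1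
      exact hg' h1

theorem ord1 : S_ORD1 := by
  intro K _ σ S _ _ κ c e he N
  ext z
  simp only [JetF, Set.mem_ofPred_eq, Set.mem_singleton_iff]
  constructor
  · rintro ⟨h0, h1, h2⟩
    refine ⟨?_, exists_a z c e he h1 h2⟩
    funext i
    have := congrFun h0 i
    simp only [jk, Nat.zero_lt_succ, dif_pos]
    exact this
  · rintro ⟨h0, a, ha, hN⟩
    subst hN
    refine ⟨?_, fun g => (lead_gens z c e a (fun s => (ha s).1) g).1, ?_⟩
    · funext i
      have := congrFun h0 i
      simp only [jk, Nat.zero_lt_succ, dif_pos] at this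
      exact this
    · obtain ⟨g', hg'⟩ := exists_g c e (fun s => jk z (a s)) fun s => (ha s).2
      refine ⟨g', ?_⟩
      rw [(lead_gens z c e a (fun s => (ha s).1) g').2]
      exact hg'

theorem ord2 : S_ORD2 := by
  intro K _ σ S _ _ _ κ c e he A p v hv hp hp' N
  have hsel : ∀ s, (if s ∈ A then v else p) ∉ zerosF (c s) := by
    intro s
    by_cases h : s ∈ A
    · rw [if_pos h]; exact hv s h
    · rw [if_neg h]; exact hp' s h
  have happ : ∀ s (i : σ), (if s ∈ A then v i else p i) = (if s ∈ A then v else p) i := by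
    intro s i
    split_ifs <;> rfl
  ext z
  simp only [JetE, Set.mem_ofPred_eq]
  have hz0 : (∀ i, z (i, 0) = p i) ↔ jk z 0 = p := by
    rw [funext_iff]
    refine forall_congr' fun i => ?_
    simp only [jk, Nat.zero_lt_succ, dif_pos]
    rfl
  rw [hz0]
  constructor
  · rintro ⟨h0, h1, c₀, hc₀, h2⟩
    refine ⟨h0, ?_⟩
    obtain ⟨g0, hg0⟩ := exists_g c e (fun s => if s ∈ A then v else p) hsel
    obtain ⟨a, ha, haN⟩ := exists_a z c e he h1 ⟨g0, by
      rw [h2]
      refine mul_ne_zero hc₀ ?_
      simp only [happ]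
      exact hg0⟩
    have ha0 : ∀ s, s ∉ A → a s = 0 := by
      intro s hs
      by_contra hne
      have := (ha s).1 0 (Nat.pos_of_ne_zero hne)
      rw [h0] at this
      exact hp' s hs this
    refine ⟨a, fun t ht => ⟨(ha t).1, ?_⟩, ?_⟩
    · have hten := tensor e
        (fun s j => ∑ i, algebraMap K (AlgebraicClosure K) (c s j i) * jk z (a s) i)
        (fun s j => ∑ i, algebraMap K (AlgebraicClosure K) (c s j i) * (if s ∈ A then v else p) i)
        g0 c₀ hc₀ hg0 (fun g => by
          have h3 := (lead_gens z c e a (fun s => (ha s).1) g).2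
          rw [haN, h2] at h3
          rw [← h3]
          simp only [happ]) t ⟨0, he t⟩
      obtain ⟨α, hα, hαx⟩ := hten
      refine ⟨α, hα, ?_⟩
      rw [mem_zerosF]
      intro j
      have h4 := hαx j
      rw [if_pos ht] at h4
      simp only [Pi.sub_apply, Pi.smul_apply, smul_eq_mul, mul_sub, Finset.sum_sub_distrib]
      rw [h4, Finset.mul_sum, sub_eq_zero]
      refine Finset.sum_congr rfl fun i _ => ?_
      ring
    · rw [← haN]
      refine Finset.sum_subset (Finset.subset_univ A) fun s _ hs => ?_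
      rw [ha0 s hs, mul_zero]
  · rintro ⟨h0, a, ha, haN⟩
    refine ⟨h0, ?_⟩
    -- extend by zero
    set a' : S → ℕ := fun s => if s ∈ A then a s else 0 with ha'
    have hN : ∑ s, e s * a' s = N := by
      rw [← haN]
      rw [← Finset.sum_subset (Finset.subset_univ A) (fun s _ hs => by simp [ha', hs])]
      refine Finset.sum_congr rfl fun s hs => ?_
      simp only [ha', if_pos hs]
    have hz : ∀ s, ∀ k < a' s, jk z k ∈ zerosF (c s) := by
      intro s k hk
      by_cases hs : s ∈ A
      · simp only [ha', if_pos hs] at hk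
        exact (ha s hs).1 k hk
      · simp only [ha', if_neg hs] at hk
        omega
    have hμ : ∀ s, ∃ μ : AlgebraicClosure K, μ ≠ 0 ∧ ∀ j,
        ∑ i, algebraMap K (AlgebraicClosure K) (c s j i) * jk z (a' s) i =
          μ * ∑ i, algebraMap K (AlgebraicClosure K) (c s j i) * (if s ∈ A then v i else p i) := by
      intro s
      by_cases hs : s ∈ A
      · obtain ⟨α, hα, hmem⟩ := (ha s hs).2
        refine ⟨α, hα, fun j => ?_⟩
        have h4 := (mem_zerosF _ _).1 hmem j
        simp only [Pi.sub_apply, Pi.smul_apply, smul_eq_mul, mul_sub, Finset.sum_sub_distrib] at h4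
        simp only [ha', if_pos hs]
        rw [sub_eq_zero] at h4
        rw [h4, Finset.mul_sum]
        refine Finset.sum_congr rfl fun i _ => ?_
        ring
      · refine ⟨1, one_ne_zero, fun j => ?_⟩
        simp only [ha', if_neg hs, h0, one_mul]
    choose μ hμ0 hμ using hμ
    subst hN
    refine ⟨fun g => (lead_gens z c e a' hz g).1, ∏ s, μ s ^ e s, ?_, fun g => ?_⟩
    · rw [Finset.prod_ne_zero_iff]
      intro s _
      exact pow_ne_zero _ (hμ0 s)
    · rw [(lead_gens z c e a' hz g).2, ← Finset.prod_mul_distrib]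
      refine Finset.prod_congr rfl fun s _ => ?_
      rw [Finset.prod_congr rfl fun k _ => hμ s (g s k), Finset.prod_mul_distrib, Finset.prod_const,
        Finset.card_univ, Fintype.card_fin]

end Pool.Agent.D0H9.SUB
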