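import Pool.Agent.D0H67.SUB.Stm

/-! # PT, TRANS -/

set_option autoImplicit false
set_option linter.unusedSectionVars false
set_option linter.unusedVariables false

namespace Pool.Agent.D0H9.SUB

open MvPolynomial Pool.Agent.W428.MOT Pool.Agent.TH192.MT Pool.Agent.TH192.DT
open Pool.Agent.D0H67.SUB

theorem pt : S_PT := by
  intro σ T _ _ G E h ε hε
  have h1 : ∃ x : G, ∀ s, (x : σ → ℂ) ∉ E s := by
    by_contra hcon
    push Not at hcon
    obtain ⟨s, hs⟩ := Subspace.exists_eq_top_of_iUnion_eq_univ
      (p := fun s => (E s).comap G.subtype) (by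
        ext x
        simp only [Set.mem_iUnion, Set.mem_univ, iff_true]
        exact hcon x)
    refine h s fun x hx => ?_
    have : (⟨x, hx⟩ : G) ∈ (E s).comap G.subtype := by rw [hs]; trivial
    exact this
  obtain ⟨x, hx⟩ := h1
  have hr : 0 < ε / (2 * (‖(x : σ → ℂ)‖ + 1)) := by positivity
  refine ⟨((ε / (2 * (‖(x : σ → ℂ)‖ + 1)) : ℝ) : ℂ) • (x : σ → ℂ), G.smul_mem _ x.2, ?_, fun s hs => ?_⟩
  · rw [norm_smul, Complex.norm_real, Real.norm_of_nonneg hr.le]
    have h2 : 0 ≤ ‖(x : σ → ℂ)‖ := norm_nonneg _
    rw [div_mul_eq_mul_div, div_lt_iff₀ (by positivity)]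
    nlinarith
  · have hne : ((ε / (2 * (‖(x : σ → ℂ)‖ + 1)) : ℝ) : ℂ) ≠ 0 := by
      exact_mod_cast hr.ne'
    exact hx s (((E s).smul_mem_iff hne).1 hs)

theorem trans : S_TRANS := by
  intro K _ _ σ _
  have hbij : Function.Bijective (algebraMap K (AlgebraicClosure K)) :=
    IsAlgClosed.algebraMap_bijective_of_isIntegral
  let φ : K ≃+* AlgebraicClosure K := RingEquiv.ofBijective (algebraMap K (AlgebraicClosure K)) hbij
  have i1 : RingHomInvPair (φ : K →+* AlgebraicClosure K) (φ.symm : AlgebraicClosure K →+* K) :=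
    RingHomInvPair.of_ringEquiv φ
  have i2 : RingHomInvPair (φ.symm : AlgebraicClosure K →+* K) (φ : K →+* AlgebraicClosure K) :=
    RingHomInvPair.of_ringEquiv_symm φ
  let e : (σ → K) ≃ₛₗ[(φ : K →+* AlgebraicClosure K)] (σ → AlgebraicClosure K) :=
    { toFun := fun x i => φ (x i)
      map_add' := fun x y => by funext i; simp
      map_smul' := fun r x => by funext i; simp
      invFun := fun y i => φ.symm (y i)
      left_inv := fun x => by funext i; simp
      right_inv := fun y => by funext i; simp }
  have he : ∀ x i, e x i = algebraMap K (AlgebraicClosure K) (x i) := fun x i => rfl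
  refine ⟨Submodule.orderIsoMapComap e, fun W => ?_, fun W x => ?_, fun {κ} c => ?_⟩
  · have h1 := rank_eq_of_equiv_equiv (R := K) (R' := AlgebraicClosure K) φ
      (e.submoduleMap W).toAddEquiv φ.bijective (fun r m => (e.submoduleMap W).map_smulₛₗ r m)
    unfold Module.finrank
    rw [h1]
    rfl
  · rw [Submodule.orderIsoMapComap_apply]
    constructor
    · intro hx
      exact ⟨x, hx, rfl⟩
    · rintro ⟨y, hy, hxy⟩
      have : y = x := e.injective (by
        funext i
        have := congrFun hxy i
        exact this)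
      rwa [← this]
  · rw [Submodule.orderIsoMapComap_apply]
    ext y
    constructor
    · rintro ⟨x, hx, rfl⟩ j
      have h1 := congrArg (algebraMap K (AlgebraicClosure K)) (hx j)
      rw [map_sum, map_zero] at h1
      rw [← h1]
      refine Finset.sum_congr rfl fun i _ => ?_
      rw [map_mul]
      rfl
    · intro hy
      refine ⟨e.symm y, fun j => ?_, e.apply_symm_apply y⟩
      apply hbij.1
      rw [map_sum, map_zero, ← hy j]
      refine Finset.sum_congr rfl fun i _ => ?_
      rw [map_mul]
      congr 1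
      exact congrFun (e.apply_symm_apply y) i

end Pool.Agent.D0H9.SUB
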